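import Pool.Agent.H444Z.Inq.Proof

set_option autoImplicit false

namespace Pool.Agent.Results.MP_130315_lc.NoCountableCountermodel

open Pool.Agent.H444Z.Inq

universe u v

/-- There is a formula of InqBQ, over a finite signature, which is refuted by some model (so it is
not valid) but is supported at every state under every assignment in every model whose domain is
countable, whatever its universe of worlds. -/
theorem result :
    ∃ (σ : Signature) (φ : Formula σ), Finite σ.Pred ∧ Finite σ.Func ∧
      (∃ (W D : Type) (M : Model σ W D), Refutes M φ) ∧
      ∀ (W : Type u) (D : Type v) (M : Model σ W D), Countable D →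
        ∀ (s : Set W) (g : ℕ → D), Supports M φ s g :=
  ⟨sig, phi, inferInstanceAs (Finite Unit), inferInstanceAs (Finite Fn),
    ⟨_, _, big, big_refutes⟩, fun _ _ M _ s g => countable_supports M s g⟩

end Pool.Agent.Results.MP_130315_lc.NoCountableCountermodel
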